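import Pool.Agent.H90.RG.Targets

/-!
# Partial regularity of stationary harmonic maps (MP_2697e3_an), part F: row CNA
-/

set_option autoImplicit false

namespace Pool.Agent.H1.RG

open MeasureTheory Metric Set Filter Topology Pool.Agent.H87.SN Pool.Agent.H90.RG
open scoped ContDiff RealInnerProductSpace ENNReal

theorem tl_apply {n : ℕ} (x : E (n + 1)) (i : Fin n) : (tl x) i = x i.succ := rfl

theorem cn_zero {n : ℕ} (t : ℝ) (y : E n) : (cn t y) 0 = t := rfl

theorem cn_succ {n : ℕ} (t : ℝ) (y : E n) (i : Fin n) : (cn t y) i.succ = y i := rfl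

theorem norm_sq_split {n : ℕ} (x : E (n + 1)) : ‖x‖ ^ 2 = x 0 ^ 2 + ‖tl x‖ ^ 2 := by
  rw [EuclideanSpace.norm_sq_eq, EuclideanSpace.norm_sq_eq, Fin.sum_univ_succ]
  simp only [Real.norm_eq_abs, sq_abs, tl_apply]

theorem ext_cn {n : ℕ} {x z : E (n + 1)} (h0 : x 0 = z 0) (hs : ∀ i : Fin n, x i.succ = z i.succ) :
    x = z := by
  ext i
  refine Fin.cases h0 hs i

theorem tl_cn {n : ℕ} (t : ℝ) (y : E n) : tl (cn t y) = y := by
  ext i
  rfl

theorem bv_apply' {n : ℕ} (i j : Fin n) : (bv i : E n) j = if j = i then 1 else 0 := by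
  simp only [bv, PiLp.single_apply]

theorem pf_CNA : T_CNA := by
  intro n
  refine ⟨fun t y => ⟨?_, tl_cn t y, rfl, fun i => rfl⟩, fun x => ⟨?_, ?_⟩, fun t y => ?_, ?_,
    fun i => ⟨?_, ?_⟩, ?_⟩
  · rw [norm_sq_split, tl_cn, cn_zero]
  · exact ext_cn rfl fun i => rfl
  · have h := norm_sq_split x
    have h2 : ‖tl x‖ ^ 2 ≤ ‖x‖ ^ 2 := by nlinarith [sq_nonneg (x 0)]
    exact le_of_sq_le_sq h2 (norm_nonneg x)
  · refine ext_cn ?_ fun i => ?_
    · rw [PiLp.add_apply, PiLp.smul_apply, cn_zero, cn_zero, bv_apply', if_pos rfl, smul_eq_mul]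
      ring
    · rw [PiLp.add_apply, PiLp.smul_apply, cn_succ, cn_succ, bv_apply',
        if_neg (Fin.succ_ne_zero i), smul_eq_mul]
      ring
  · ext i
    rw [tl_apply, bv_apply', if_neg (Fin.succ_ne_zero i)]
    rfl
  · ext k
    rw [tl_apply, bv_apply', bv_apply']
    simp only [Fin.succ_inj]
  · refine ext_cn ?_ fun k => ?_
    · rw [cn_zero, bv_apply', if_neg (Fin.succ_ne_zero i).symm]
    · rw [cn_succ, bv_apply', bv_apply']
      simp only [Fin.succ_inj]
  · unfold cn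
    refine (PiLp.continuous_toLp 2 _).comp (continuous_pi fun i => ?_)
    refine Fin.cases ?_ (fun k => ?_) i
    · exact continuous_fst
    · exact (EuclideanSpace.proj k).continuous.comp continuous_snd

end Pool.Agent.H1.RG
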