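import Pool.Agent.H48.RG.Targets

/-!
# Partial regularity of stationary harmonic maps (MP_2697e3_an), part D: row SRS
-/

set_option autoImplicit false

namespace Pool.Agent.H1.RG

open MeasureTheory Metric Set Filter Topology Pool.Agent.H48.RG Pool.Agent.H87.SN
open scoped ContDiff RealInnerProductSpace ENNReal

theorem tst_mono {n : ℕ} {U W : Set (E n)} {φ : E n → ℝ} (hUW : W ⊆ U) (h : Tst W φ) : Tst U φ :=
  ⟨h.1, h.2.1, h.2.2.trans hUW⟩

theorem wb_mono {n : ℕ} {U W : Set (E n)} {f : E n → ℝ} {D : E n → E n} (hUW : W ⊆ U)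
    (h : WB U f D) : WB W f D := by
  have hm : volume.restrict W ≤ volume.restrict U := Measure.restrict_mono hUW le_rfl
  obtain ⟨B, hB⟩ := h.bd
  exact ⟨h.ms.mono_measure hm, ⟨B, ae_restrict_of_ae_restrict_of_subset hUW hB⟩,
    h.d2.mono_measure hm, fun φ hφ v => h.wg φ (tst_mono hUW hφ) v⟩

theorem pf_SRS : T_SRS := by
  intro n m K x y r s u D Om h hUW
  exact ⟨fun k => wb_mono hUW (h.wb k),
    fun i j => (h.ms i j).mono_measure (Measure.restrict_mono hUW le_rfl), h.anti,
    fun i j => ae_restrict_of_ae_restrict_of_subset hUW (h.le i j),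
    fun i φ hφ => h.eq i φ (tst_mono hUW hφ)⟩

end Pool.Agent.H1.RG
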